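import Mathlib

set_option autoImplicit false

open scoped Classical
open Filter Topology

namespace Pool.Agent.Results.MP_7268ce_co.GrowthRateTwo

/-- A box in `[n]^d`: a product of nonempty sets. -/
def IsBox {n d : ℕ} (S : Set (Fin d → Fin n)) : Prop :=
  ∃ B : Fin d → Set (Fin n), (∀ i, (B i).Nonempty) ∧ S = {x | ∀ i, x i ∈ B i}

/-- The line in direction `i` through the point `c`. -/
def line {n d : ℕ} (i : Fin d) (c : Fin d → Fin n) : Set (Fin d → Fin n) :=
  {x | ∀ j, j ≠ i → x j = c j}

/-- `P` is a partition of `[n]^d` into boxes. -/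
def IsBoxPartition {n d : ℕ} (P : Finset (Set (Fin d → Fin n))) : Prop :=
  (∀ S ∈ P, IsBox S) ∧ ∀ x, ∃! S, S ∈ P ∧ x ∈ S

/-- Every line meets at least `k` members of `P`. -/
def Piercing {n d : ℕ} (k : ℕ) (P : Finset (Set (Fin d → Fin n))) : Prop :=
  ∀ (i : Fin d) (c : Fin d → Fin n), k ≤ (P.filter fun S => (S ∩ line i c).Nonempty).card

/-- The minimum number of boxes in a `k`-piercing partition of `[n]^d` into boxes. -/
noncomputable def pBox (n d k : ℕ) : ℕ :=
  sInf {m | ∃ P : Finset (Set (Fin d → Fin n)), P.card = m ∧ IsBoxPartition P ∧ Piercing k P}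

/-- labelled form -/
def Good (α : Type) (d k m : ℕ) : Prop :=
  ∃ (Λ : Type) (_ : Finite Λ) (F : (Fin d → α) → Λ),
    (∀ x y i, F x = F y → F (Function.update x i (y i)) = F x) ∧
    (∀ (i : Fin d) (c : Fin d → α), k ≤ (F '' {x | ∀ j, j ≠ i → x j = c j}).ncard) ∧
    (Set.range F).ncard ≤ m

lemma good_of_surj {α β : Type} {d k m : ℕ} (φ : β → α) (hφ : Function.Surjective φ)
    (h : Good α d k m) : Good β d k m := by
  obtain ⟨Λ, hΛ, F, h1, h2, h3⟩ := h
  refine ⟨Λ, hΛ, fun x => F (φ ∘ x), ?_, ?_, ?_⟩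
  · intro x y i hxy
    have := h1 (φ ∘ x) (φ ∘ y) i hxy
    simp only [Function.comp_update]
    simpa using this
  · intro i c
    refine le_trans (h2 i (φ ∘ c)) (Set.ncard_le_ncard ?_ (Set.toFinite _))
    rintro _ ⟨x, hx, rfl⟩
    obtain ⟨a, ha⟩ := hφ (x i)
    refine ⟨Function.update c i a, ?_, ?_⟩
    · intro j hj
      simp [Function.update_of_ne hj]
    · have hu : φ ∘ Function.update c i a = x := by
        rw [Function.comp_update, ha]
        funext j
        by_cases hj : j = i
        · subst hj; simp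
        · rw [Function.update_of_ne hj]
          exact (hx j hj).symm
      exact congrArg F hu
  · refine le_trans (Set.ncard_le_ncard ?_ (Set.toFinite _)) h3
    rintro _ ⟨x, rfl⟩
    exact ⟨φ ∘ x, rfl⟩

lemma exists_surj (α : Type) [Fintype α] [Nonempty α] (n : ℕ) (h : Fintype.card α ≤ n) :
    ∃ φ : Fin n → α, Function.Surjective φ := by
  have h' : Fintype.card α ≤ Fintype.card (Fin n) := by simpa using h
  obtain ⟨e⟩ := Function.Embedding.nonempty_of_card_le h'
  exact ⟨Function.invFun e, Function.invFun_surjective e.injective⟩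

lemma fiber_box {n d : ℕ} {Λ : Type} (F : (Fin d → Fin n) → Λ)
    (h1 : ∀ x y i, F x = F y → F (Function.update x i (y i)) = F x) (x₀ : Fin d → Fin n) :
    IsBox (F ⁻¹' {F x₀}) := by
  refine ⟨fun i => {a | ∃ y, F y = F x₀ ∧ y i = a}, fun i => ⟨x₀ i, x₀, rfl, rfl⟩, ?_⟩
  ext z
  simp only [Set.mem_preimage, Set.mem_singleton_iff, Set.mem_ofPred_eq]
  constructor
  · intro hz i
    exact ⟨z, hz, rfl⟩
  · intro hz
    have key : ∀ T : Finset (Fin d), F (fun i => if i ∈ T then z i else x₀ i) = F x₀ := by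
      intro T
      induction T using Finset.induction_on with
      | empty => simp
      | insert a T ha ih =>
        obtain ⟨y, hy, hya⟩ := hz a
        have := h1 (fun i => if i ∈ T then z i else x₀ i) y a (ih.trans hy.symm)
        rw [ih, hya] at this
        rw [← this]
        congr 1
        funext i
        by_cases hi : i = a
        · subst hi; simp
        · rw [Function.update_of_ne hi]
          simp [hi]
    have := key Finset.univ
    simpa using this

lemma exists_partition {n d k m : ℕ} (h : Good (Fin n) d k m) :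
    ∃ P : Finset (Set (Fin d → Fin n)), P.card ≤ m ∧ IsBoxPartition P ∧ Piercing k P := by
  obtain ⟨Λ, hΛ, F, h1, h2, h3⟩ := h
  refine ⟨Finset.univ.image (fun x => F ⁻¹' {F x}), ?_, ⟨?_, ?_⟩, ?_⟩
  · refine le_trans ?_ h3
    rw [← Set.ncard_coe_finset]
    have : ((Finset.univ.image (fun x => F ⁻¹' {F x}) : Finset (Set (Fin d → Fin n))) :
        Set (Set (Fin d → Fin n))) = (fun l => F ⁻¹' {l}) '' Set.range F := by
      ext S
      simp
    rw [this]
    exact Set.ncard_image_le (Set.toFinite _)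
  · intro S hS
    rw [Finset.mem_image] at hS
    obtain ⟨x, -, rfl⟩ := hS
    exact fiber_box F h1 x
  · intro x
    refine ⟨F ⁻¹' {F x}, ⟨Finset.mem_image.2 ⟨x, Finset.mem_univ _, rfl⟩, rfl⟩, ?_⟩
    rintro S ⟨hS, hxS⟩
    rw [Finset.mem_image] at hS
    obtain ⟨y, -, rfl⟩ := hS
    have : F x = F y := hxS
    simp only [this]
  · intro i c
    refine le_trans (h2 i c) ?_
    rw [← Set.ncard_coe_finset]
    refine Set.ncard_le_ncard_of_injOn (fun l => F ⁻¹' {l}) ?_ ?_ (Set.toFinite _)
    · rintro _ ⟨x, hx, rfl⟩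
      rw [Finset.coe_filter]
      exact ⟨Finset.mem_image.2 ⟨x, Finset.mem_univ _, rfl⟩, x, rfl, hx⟩
    · rintro _ ⟨x, hx, rfl⟩ _ ⟨y, hy, rfl⟩ hxy
      have h3 : x ∈ F ⁻¹' {F x} := rfl
      simp only at hxy
      rw [hxy] at h3
      exact h3

lemma good_of_partition {n d k : ℕ} (P : Finset (Set (Fin d → Fin n)))
    (hP : IsBoxPartition P) (hk : Piercing k P) : Good (Fin n) d k P.card := by
  obtain ⟨hb, hu⟩ := hP
  choose G hG hG' using hu
  refine ⟨{S // S ∈ P}, inferInstance, fun x => ⟨G x, (hG x).1⟩, ?_, ?_, ?_⟩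
  · intro x y i hxy
    have hxy' : G x = G y := congrArg Subtype.val hxy
    apply Subtype.ext
    simp only
    symm
    apply hG'
    refine ⟨(hG x).1, ?_⟩
    obtain ⟨B, -, hB⟩ := hb _ (hG x).1
    have hx := (hG x).2
    have hy := (hG y).2
    rw [← hxy'] at hy
    rw [hB] at hx hy ⊢
    intro j
    by_cases hj : j = i
    · subst hj
      simpa using hy j
    · rw [Function.update_of_ne hj]
      exact hx j
  · intro i c
    refine le_trans (hk i c) ?_
    rw [← Set.ncard_coe_finset]
    refine Set.ncard_le_ncard_of_injOn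
      (fun S => if h : S ∈ P then (⟨S, h⟩ : {S // S ∈ P}) else ⟨G c, (hG c).1⟩) ?_ ?_
      (Set.toFinite _)
    · intro S hS
      rw [Finset.coe_filter] at hS
      obtain ⟨hS, x, hxS, hx⟩ := hS
      refine ⟨x, hx, ?_⟩
      simp only [hS, dif_pos]
      apply Subtype.ext
      exact (hG' x S ⟨hS, hxS⟩).symm
    · intro S hS T hT hST
      rw [Finset.coe_filter] at hS hT
      simp only [hS.1, hT.1, dif_pos] at hST
      exact congrArg Subtype.val hST
  · refine le_trans (Set.ncard_le_ncard (Set.subset_univ _) (Set.toFinite _)) ?_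
    rw [Set.ncard_univ, Nat.card_eq_fintype_card]
    simp

lemma pBox_le {n d k m : ℕ} (h : Good (Fin n) d k m) : pBox n d k ≤ m := by
  obtain ⟨P, h1, h2, h3⟩ := exists_partition h
  exact le_trans (Nat.sInf_le ⟨P, rfl, h2, h3⟩) h1

lemma good_pBox {n d k m : ℕ} (h : Good (Fin n) d k m) : Good (Fin n) d k (pBox n d k) := by
  obtain ⟨P, h1, h2, h3⟩ := exists_partition h
  have hne : {m | ∃ P : Finset (Set (Fin d → Fin n)), P.card = m ∧ IsBoxPartition P ∧
      Piercing k P}.Nonempty := ⟨_, P, rfl, h2, h3⟩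
  obtain ⟨Q, hQ1, hQ2, hQ3⟩ := Nat.sInf_mem hne
  have := good_of_partition Q hQ2 hQ3
  rw [hQ1] at this
  exact this

lemma limit_of_good {α : Type} [Fintype α] [Nonempty α] {d k m : ℕ} (h : Good α d k m) :
    ∃ L : ℝ, Tendsto (fun n => (pBox n d k : ℝ)) atTop (𝓝 L) ∧ L ≤ m := by
  set N := Fintype.card α with hN
  have hN1 : 0 < N := Fintype.card_pos
  have hg : ∀ n, Good (Fin (n + N)) d k m := by
    intro n
    obtain ⟨φ, hφ⟩ := exists_surj α (n + N) (by omega)
    exact good_of_surj φ hφ h
  have hanti : Antitone (fun n => (pBox (n + N) d k : ℝ)) := by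
    apply antitone_nat_of_succ_le
    intro n
    have h1 := good_pBox (hg n)
    have : Nonempty (Fin (n + N)) := ⟨⟨0, by omega⟩⟩
    obtain ⟨φ, hφ⟩ := exists_surj (Fin (n + N)) (n + 1 + N) (by simp)
    have h2 := pBox_le (good_of_surj φ hφ h1)
    exact_mod_cast h2
  have hb : BddBelow (Set.range (fun n => (pBox (n + N) d k : ℝ))) :=
    ⟨0, by rintro _ ⟨n, rfl⟩; positivity⟩
  have ht := tendsto_atTop_ciInf hanti hb
  refine ⟨_, (tendsto_add_atTop_iff_nat N).1 ht, ?_⟩
  refine le_trans (ciInf_le hb 0) ?_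
  have := pBox_le (hg 0)
  exact_mod_cast this

/-- cells -/
abbrev Cell (d : ℕ) := Fin d → Bool

/-- messages -/
abbrev Msg (d q : ℕ) := Option (Cell d × Fin q)

def flipAt {d : ℕ} (v : Cell d) (i : Fin d) : Cell d := Function.update v i (!v i)

lemma flipAt_inj {d : ℕ} {v : Cell d} {i j : Fin d} (h : flipAt v i = flipAt v j) : i = j := by
  by_contra hij
  have := congrFun h i
  unfold flipAt at this
  rw [Function.update_self, Function.update_of_ne hij] at this
  simp at this

lemma flipAt_flipAt {d : ℕ} (v : Cell d) (i : Fin d) : flipAt (flipAt v i) i = v := by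
  unfold flipAt
  simp

def theta {d q : ℕ} (v : Cell d) : Msg d q → Option (Fin q)
  | none => none
  | some p => if p.1 = v then some p.2 else none

noncomputable def nbr {d q : ℕ} (v : Cell d) : Msg d q → Option (Fin d)
  | none => none
  | some p => if h : ∃ i, p.1 = flipAt v i then some h.choose else none

lemma nbr_flipAt {d q : ℕ} (v : Cell d) (i : Fin d) (s : Fin q) :
    nbr v (some (flipAt v i, s)) = some i := by
  have h : ∃ j, flipAt v i = flipAt v j := ⟨i, rfl⟩
  unfold nbr
  simp only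
  rw [dif_pos h]
  exact congrArg some (flipAt_inj h.choose_spec).symm

lemma theta_eq {d q : ℕ} {v : Cell d} {a : Msg d q} (h : theta v a ≠ none) :
    ∃ s, a = some (v, s) := by
  cases a with
  | none => exact absurd rfl h
  | some p =>
    unfold theta at h
    by_cases hp : p.1 = v
    · exact ⟨p.2, by rw [← hp]⟩
    · simp [hp] at h

variable {d q K : ℕ}

noncomputable def srv (D : Cell d → Fin K → Fin d) (v : Cell d) (x : Fin d → Msg d q)
    (s : Fin K) : Option (Fin d × Option (Fin q)) :=
  (nbr v (x (D v s))).map (fun l => (l, theta v (x l)))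

def act (D : Cell d → Fin K → Fin d) (v : Cell d) (x : Fin d → Msg d q) : Fin d → Prop
  | i => ∀ j, ∀ _ : j < i, act D v x j → theta v (x j) ≠ none → ∀ s, D (flipAt v i) s ≠ j
  termination_by i => i.val

lemma act_iff (D : Cell d → Fin K → Fin d) (v : Cell d) (x : Fin d → Msg d q) (i : Fin d) :
    act D v x i ↔ ∀ j, j < i → act D v x j → theta v (x j) ≠ none →
      ∀ s, D (flipAt v i) s ≠ j := by
  rw [act]

noncomputable def mm (D : Cell d → Fin K → Fin d) (v : Cell d) (x : Fin d → Msg d q)
    (i : Fin d) : Option (Fin q) :=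
  if act D v x i then theta v (x i) else none

lemma act_congr_lt (D : Cell d → Fin K → Fin d) (v : Cell d) (x y : Fin d → Msg d q) :
    ∀ n : ℕ, ∀ i : Fin d, i.val = n →
      (∀ j, j < i → act D v x j → act D v y j → theta v (x j) = theta v (y j)) →
      (act D v x i ↔ act D v y i) := by
  intro n
  induction n using Nat.strong_induction_on with
  | _ n ih =>
    intro i hi hxy
    have key : ∀ j, j < i → (act D v x j ↔ act D v y j) := by
      intro j hj
      refine ih j.val (by rw [← hi]; exact hj) j rfl ?_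
      intro l hl h1 h2
      exact hxy l (lt_trans hl hj) h1 h2
    rw [act_iff, act_iff]
    constructor
    · intro h j hj h1 h2
      have h1' := (key j hj).2 h1
      have := hxy j hj h1' h1
      exact h j hj h1' (by rw [this]; exact h2)
    · intro h j hj h1 h2
      have h1' := (key j hj).1 h1
      have := hxy j hj h1 h1'
      exact h j hj h1' (by rw [← this]; exact h2)

lemma act_of_mm (D : Cell d → Fin K → Fin d) (v : Cell d) (x y : Fin d → Msg d q)
    (h : mm D v x = mm D v y) (i : Fin d) : act D v x i ↔ act D v y i := by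
  refine act_congr_lt D v x y i.val i rfl ?_
  intro j _ h1 h2
  have := congrFun h j
  unfold mm at this
  rwa [if_pos h1, if_pos h2] at this

lemma mm_mix (D : Cell d → Fin K → Fin d) (v : Cell d) (x y z : Fin d → Msg d q)
    (h : mm D v x = mm D v y) (hz : ∀ i, z i = x i ∨ z i = y i) : mm D v z = mm D v x := by
  have hth : ∀ i, act D v x i → theta v (z i) = theta v (x i) := by
    intro i hi
    rcases hz i with h1 | h1
    · rw [h1]
    · have hi' := (act_of_mm D v x y h i).1 hi
      have := congrFun h i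
      unfold mm at this
      rw [if_pos hi, if_pos hi'] at this
      rw [h1, this]
  have hact : ∀ i, act D v x i ↔ act D v z i := by
    intro i
    refine act_congr_lt D v x z i.val i rfl ?_
    intro j _ h1 _
    exact (hth j h1).symm
  funext i
  unfold mm
  by_cases hi : act D v x i
  · rw [if_pos hi, if_pos ((hact i).1 hi), hth i hi]
  · rw [if_neg hi, if_neg (fun hh => hi ((hact i).2 hh))]

lemma srv_mix (D : Cell d → Fin K → Fin d) (v : Cell d) (x y z : Fin d → Msg d q)
    (h : srv D v x = srv D v y) (hz : ∀ i, z i = x i ∨ z i = y i) : srv D v z = srv D v x := by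
  funext s
  have hs := congrFun h s
  unfold srv at hs ⊢
  have hn : nbr v (x (D v s)) = nbr v (y (D v s)) := by
    cases h1 : nbr v (x (D v s)) with
    | none =>
      cases h2 : nbr v (y (D v s)) with
      | none => rfl
      | some b => rw [h1, h2] at hs; simp at hs
    | some a =>
      cases h2 : nbr v (y (D v s)) with
      | none => rw [h1, h2] at hs; simp at hs
      | some b =>
        rw [h1, h2] at hs
        simp only [Option.map_some, Option.some.injEq, Prod.mk.injEq] at hs
        rw [hs.1]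
  have hn' : nbr v (z (D v s)) = nbr v (x (D v s)) := by
    rcases hz (D v s) with h1 | h1
    · rw [h1]
    · rw [h1, hn]
  rw [hn']
  cases h1 : nbr v (x (D v s)) with
  | none => rfl
  | some a =>
    rw [← hn, h1] at hs
    simp only [Option.map_some, Option.some.injEq, Prod.mk.injEq, true_and] at hs ⊢
    rcases hz a with h2 | h2
    · rw [h2]
    · rw [h2, hs]

/-- the label of a point -/
noncomputable def lab (D : Cell d → Fin K → Fin d) (y : Fin d → Bool × Msg d q) :
    Cell d × (Fin K → Option (Fin d × Option (Fin q))) × (Fin d → Option (Fin q)) :=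
  (fun i => (y i).1, srv D (fun i => (y i).1) (fun i => (y i).2),
    mm D (fun i => (y i).1) (fun i => (y i).2))

lemma lab_mix (D : Cell d → Fin K → Fin d) (x y : Fin d → Bool × Msg d q) (i : Fin d)
    (h : lab D x = lab D y) : lab D (Function.update x i (y i)) = lab D x := by
  unfold lab at h
  rw [Prod.mk.injEq, Prod.mk.injEq] at h
  obtain ⟨h1, h2, h3⟩ := h
  have hz : ∀ j, (Function.update x i (y i)) j = x j ∨ (Function.update x i (y i)) j = y j := by
    intro j
    by_cases hj : j = i
    · subst hj; right; simp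
    · left; rw [Function.update_of_ne hj]
  have hv : (fun j => ((Function.update x i (y i)) j).1) = fun j => (x j).1 := by
    funext j
    rcases hz j with hh | hh
    · rw [hh]
    · rw [hh]; exact (congrFun h1 j).symm
  have hz2 : ∀ j, ((Function.update x i (y i)) j).2 = (x j).2 ∨
      ((Function.update x i (y i)) j).2 = (y j).2 := by
    intro j
    rcases hz j with hh | hh
    · left; rw [hh]
    · right; rw [hh]
  rw [← h1] at h2 h3
  unfold lab
  rw [hv]
  rw [srv_mix D _ _ _ _ h2 hz2, mm_mix D _ _ _ _ h3 hz2]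

lemma lab_line (D : Cell d → Fin K → Fin d) (i : Fin d) (c : Fin d → Bool × Msg d q) :
    q + 2 ≤ (lab D '' {x | ∀ j, j ≠ i → x j = c j}).ncard := by
  set vc : Cell d := fun j => (c j).1 with hvc
  set xc : Fin d → Msg d q := fun j => (c j).2 with hxc
  have hV : ∀ b a, (fun j => ((Function.update c i (b, a)) j).1) = Function.update vc i b := by
    intro b a
    funext j
    by_cases hj : j = i
    · subst hj; simp
    · rw [Function.update_of_ne hj, Function.update_of_ne hj]
  have hX : ∀ b a, (fun j => ((Function.update c i (b, a)) j).2) = Function.update xc i a := by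
    intro b a
    funext j
    by_cases hj : j = i
    · subst hj; simp
    · rw [Function.update_of_ne hj, Function.update_of_ne hj]
  have hlab : ∀ b a, lab D (Function.update c i (b, a)) =
      (Function.update vc i b, srv D (Function.update vc i b) (Function.update xc i a),
        mm D (Function.update vc i b) (Function.update xc i a)) := by
    intro b a
    unfold lab
    rw [hV b a, hX b a]
  have main : ∀ b : Bool,
      (∀ a a' : Msg d q, lab D (Function.update c i (b, a)) = lab D (Function.update c i (b, a')) →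
        theta (Function.update vc i b) a = theta (Function.update vc i b) a') →
      q + 2 ≤ (lab D '' {x | ∀ j, j ≠ i → x j = c j}).ncard := by
    intro b hb
    set w := Function.update vc i b with hw
    let G : Option (Option (Fin q)) →
        Cell d × (Fin K → Option (Fin d × Option (Fin q))) × (Fin d → Option (Fin q)) :=
      fun o => match o with
        | none => lab D (Function.update c i (!b, none))
        | some none => lab D (Function.update c i (b, none))
        | some (some t) => lab D (Function.update c i (b, some (w, t)))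
    have hne : ∀ a a', lab D (Function.update c i (!b, a)) ≠
        lab D (Function.update c i (b, a')) := by
      intro a a' hh
      rw [hlab, hlab, Prod.mk.injEq] at hh
      have := congrFun hh.1 i
      simp at this
    have hG : Function.Injective G := by
      intro o o' hoo
      rcases o with _ | _ | t <;> rcases o' with _ | _ | t'
      · rfl
      · exact absurd hoo (hne _ _)
      · exact absurd hoo (hne _ _)
      · exact absurd hoo.symm (hne _ _)
      · rfl
      · have := hb _ _ hoo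
        simp [theta] at this
      · exact absurd hoo.symm (hne _ _)
      · have := hb _ _ hoo
        simp [theta] at this
      · have := hb _ _ hoo
        simp only [theta, if_true, Option.some.injEq] at this
        rw [this]
    have h1 : (Set.range G).ncard = q + 2 := by
      rw [← Set.image_univ, Set.ncard_image_of_injective _ hG, Set.ncard_univ]
      simp
    rw [← h1]
    refine Set.ncard_le_ncard ?_ (Set.toFinite _)
    have hmem : ∀ a : Bool × Msg d q, Function.update c i a ∈ {x | ∀ j, j ≠ i → x j = c j} := by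
      intro a j hj
      exact Function.update_of_ne hj _ _
    rintro _ ⟨o, rfl⟩
    rcases o with _ | _ | t
    · exact ⟨_, hmem _, rfl⟩
    · exact ⟨_, hmem _, rfl⟩
    · exact ⟨_, hmem _, rfl⟩
  set v := Function.update vc i false with hv
  set u := Function.update vc i true with hu
  have huv : u = flipAt v i := by
    unfold flipAt
    rw [hv, hu]
    simp
  have hvu : v = flipAt u i := by
    unfold flipAt
    rw [hv, hu]
    simp
  have hind : ∀ a, act D v (Function.update xc i a) i ↔ act D v xc i := by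
    intro a
    refine act_congr_lt D v _ _ i.val i rfl ?_
    intro j hj _ _
    rw [Function.update_of_ne (ne_of_lt hj)]
  by_cases hact : act D v xc i
  · apply main false
    intro a a' hh
    rw [hlab, hlab, Prod.mk.injEq, Prod.mk.injEq] at hh
    have h3 := congrFun hh.2.2 i
    unfold mm at h3
    rw [if_pos ((hind a).2 hact), if_pos ((hind a').2 hact)] at h3
    simpa using h3
  · apply main true
    intro a a' hh
    rw [act_iff] at hact
    push Not at hact
    obtain ⟨j, hji, hj1, hj2, s, hs⟩ := hact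
    obtain ⟨t, ht⟩ := theta_eq hj2
    rw [hlab, hlab, Prod.mk.injEq, Prod.mk.injEq] at hh
    have h3 := congrFun hh.2.1 s
    have hDs : D u s = j := by rw [huv]; exact hs
    have hji' : j ≠ i := ne_of_lt hji
    unfold srv at h3
    rw [← hu, hDs, Function.update_of_ne hji', Function.update_of_ne hji', ht, hvu,
      nbr_flipAt] at h3
    simpa using h3

/-- admissible `mm` values -/
noncomputable def Ind (D : Cell d → Fin K → Fin d) (q : ℕ) (v : Cell d) :
    Finset (Fin d → Option (Fin q)) :=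
  Finset.univ.filter fun m => ∀ i j, j < i → m i ≠ none → m j ≠ none → ∀ s, D (flipAt v i) s ≠ j

lemma mm_mem (D : Cell d → Fin K → Fin d) (v : Cell d) (x : Fin d → Msg d q) :
    mm D v x ∈ Ind D q v := by
  unfold Ind
  rw [Finset.mem_filter]
  refine ⟨Finset.mem_univ _, ?_⟩
  intro i j hji hi hj
  unfold mm at hi hj
  by_cases h1 : act D v x i
  · by_cases h2 : act D v x j
    · rw [if_pos h2] at hj
      rw [act_iff] at h1
      exact h1 j hji h2 hj
    · rw [if_neg h2] at hj; exact absurd rfl hj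
  · rw [if_neg h1] at hi; exact absurd rfl hi

lemma lab_count (D : Cell d → Fin K → Fin d) :
    (Set.range (lab (q := q) D)).ncard ≤ (1 + d * (q + 1)) ^ K * ∑ v, (Ind D q v).card := by
  let S : Finset (Cell d × (Fin K → Option (Fin d × Option (Fin q))) × (Fin d → Option (Fin q))) :=
    Finset.univ.filter fun t => t.2.2 ∈ Ind D q t.1
  have h1 : (Set.range (lab (q := q) D)).ncard ≤ S.card := by
    rw [← Set.ncard_coe_finset]
    refine Set.ncard_le_ncard ?_ (Set.toFinite _)
    rintro _ ⟨y, rfl⟩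
    simp only [S, Finset.coe_filter, Finset.mem_univ, true_and, Set.mem_ofPred_eq]
    exact mm_mem D _ _
  refine le_trans h1 (le_of_eq ?_)
  simp only [S]
  rw [Finset.card_filter, Fintype.sum_prod_type, Finset.mul_sum]
  refine Finset.sum_congr rfl ?_
  intro v _
  rw [Fintype.sum_prod_type]
  trans ∑ _f : Fin K → Option (Fin d × Option (Fin q)), (Ind D q v).card
  · refine Finset.sum_congr rfl ?_
    intro f _
    simp
  · rw [Finset.sum_const]
    simp
    left
    ring

theorem good_main (D : Cell d → Fin K → Fin d) :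
    Good (Bool × Msg d q) d (q + 2) ((1 + d * (q + 1)) ^ K * ∑ v, (Ind D q v).card) :=
  ⟨_, inferInstance, lab D, fun x y i h => lab_mix D x y i h, fun i c => lab_line D i c,
    lab_count D⟩

lemma card_small {d : ℕ} (M : Finset (Fin d)) (g : ℕ) :
    (M.filter (fun i => ¬ g ≤ (M.filter (fun j => j < i)).card)).card ≤ g := by
  have hlt : ∀ i ∈ M, ∀ i' ∈ M, i < i' →
      (M.filter (fun j => j < i)).card < (M.filter (fun j => j < i')).card := by
    intro i hi i' _ hii
    apply Finset.card_lt_card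
    rw [Finset.ssubset_iff_of_subset]
    · exact ⟨i, by simp [hi, hii], by simp⟩
    · intro j hj
      simp only [Finset.mem_filter] at hj ⊢
      exact ⟨hj.1, lt_trans hj.2 hii⟩
  have h := Finset.card_le_card_of_injOn (s := M.filter (fun i => ¬ g ≤ (M.filter (fun j => j < i)).card))
    (t := Finset.range g) (fun i => (M.filter (fun j => j < i)).card) ?_ ?_
  · simpa using h
  · intro i hi
    have hi' := hi
    rw [Finset.mem_coe, Finset.mem_filter] at hi'
    simpa using hi'.2
  · intro i hi i' hi' hii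
    rw [Finset.mem_coe, Finset.mem_filter] at hi hi'
    rcases lt_trichotomy i i' with h1 | h1 | h1
    · exact absurd hii (ne_of_lt (hlt i hi.1 i' hi'.1 h1))
    · exact h1
    · exact absurd hii.symm (ne_of_lt (hlt i' hi'.1 i hi.1 h1))

/-- support -/
noncomputable def supp {d q : ℕ} (m : Fin d → Option (Fin q)) : Finset (Fin d) :=
  Finset.univ.filter fun i => m i ≠ none

lemma sum_supp (d q : ℕ) (ρ : ℝ) :
    ∑ m : Fin d → Option (Fin q), ρ ^ (supp m).card = (1 + q * ρ) ^ d := by
  have h1 : ∀ m : Fin d → Option (Fin q),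
      ρ ^ (supp m).card = ∏ i, (if m i ≠ none then ρ else 1) := by
    intro m
    unfold supp
    rw [Finset.prod_ite, Finset.prod_const, Finset.prod_const, one_pow, mul_one]
  rw [Finset.sum_congr rfl (fun m _ => h1 m)]
  have h2 := Finset.prod_univ_sum (fun _ : Fin d => (Finset.univ : Finset (Option (Fin q))))
    (fun _ o => if o ≠ none then ρ else (1 : ℝ))
  rw [Fintype.piFinset_univ] at h2
  rw [← h2]
  simp [Fintype.sum_option]

lemma count_bound {d q K g : ℕ} (v : Cell d) (m : Fin d → Option (Fin q)) (ρ : ℝ)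
    (h0 : 0 < ρ) (h1 : ρ ≤ 1) (hρ : ((d - g : ℕ) : ℝ) ^ K ≤ ρ * (d : ℝ) ^ K) :
    (((Finset.univ : Finset (Cell d → Fin K → Fin d)).filter
      (fun D => m ∈ Ind D q v)).card : ℝ) * ρ ^ g ≤
      ((d : ℝ) ^ K) ^ (2 ^ d) * ρ ^ (supp m).card := by
  let G : Cell d → Finset (Fin K → Fin d) := fun u =>
    Finset.univ.filter fun f => ∀ i, u = flipAt v i → m i ≠ none → ∀ j, j < i → m j ≠ none →
      ∀ s, f s ≠ j
  have hsub : (Finset.univ : Finset (Cell d → Fin K → Fin d)).filter
      (fun D => m ∈ Ind D q v) ⊆ Fintype.piFinset G := by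
    intro D hD
    rw [Finset.mem_filter] at hD
    have hD2 := hD.2
    unfold Ind at hD2
    rw [Finset.mem_filter] at hD2
    rw [Fintype.mem_piFinset]
    intro u
    simp only [G, Finset.mem_filter, Finset.mem_univ, true_and]
    intro i hu hi j hji hj s
    rw [hu]
    exact hD2.2 i j hji hi hj s
  set M := supp m with hM
  let T : Finset (Fin d) := M.filter (fun i => g ≤ (M.filter (fun j => j < i)).card)
  let U : Finset (Cell d) := T.image (flipAt v)
  have hU : U.card = T.card :=
    Finset.card_image_of_injective _ (fun i j hij => flipAt_inj hij)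
  have hG : ∀ u, ((G u).card : ℝ) ≤ (d : ℝ) ^ K * (if u ∈ U then ρ else 1) := by
    intro u
    by_cases hu : u ∈ U
    · rw [if_pos hu]
      obtain ⟨i, hi, rfl⟩ := Finset.mem_image.1 hu
      have hi' := Finset.mem_filter.1 hi
      have hsub2 : G (flipAt v i) ⊆
          Fintype.piFinset (fun _ : Fin K => Finset.univ \ (M.filter (fun j => j < i))) := by
        intro f hf
        simp only [G, Finset.mem_filter, Finset.mem_univ, true_and] at hf
        rw [Fintype.mem_piFinset]
        intro s
        rw [Finset.mem_sdiff]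
        refine ⟨Finset.mem_univ _, ?_⟩
        intro hs
        rw [Finset.mem_filter] at hs
        have hmi : m i ≠ none := by
          have := hi'.1
          rw [hM] at this
          unfold supp at this
          exact (Finset.mem_filter.1 this).2
        have hmj : m (f s) ≠ none := by
          have := hs.1
          rw [hM] at this
          unfold supp at this
          exact (Finset.mem_filter.1 this).2
        exact hf i rfl hmi (f s) hs.2 hmj s rfl
      have hc := Finset.card_le_card hsub2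
      rw [Fintype.card_piFinset, Finset.prod_const, Finset.card_univ, Fintype.card_fin,
        Finset.card_sdiff_of_subset (Finset.subset_univ _), Finset.card_univ,
        Fintype.card_fin] at hc
      have hc2 : (d - (M.filter (fun j => j < i)).card) ^ K ≤ (d - g) ^ K :=
        Nat.pow_le_pow_left (Nat.sub_le_sub_left hi'.2 d) K
      have hc3 := le_trans hc hc2
      calc ((G (flipAt v i)).card : ℝ) ≤ (((d - g) ^ K : ℕ) : ℝ) := by exact_mod_cast hc3
        _ = ((d - g : ℕ) : ℝ) ^ K := by push_cast; rfl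
        _ ≤ ρ * (d : ℝ) ^ K := hρ
        _ = (d : ℝ) ^ K * ρ := by ring
    · rw [if_neg hu, mul_one]
      have hc : (G u).card ≤ d ^ K := by
        refine le_trans (Finset.card_le_univ _) ?_
        simp
      exact_mod_cast hc
  have hcard : (((Finset.univ : Finset (Cell d → Fin K → Fin d)).filter
      (fun D => m ∈ Ind D q v)).card : ℝ) ≤ ((d : ℝ) ^ K) ^ (2 ^ d) * ρ ^ T.card := by
    have h2 := Finset.card_le_card hsub
    rw [Fintype.card_piFinset] at h2
    calc (((Finset.univ : Finset (Cell d → Fin K → Fin d)).filter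
        (fun D => m ∈ Ind D q v)).card : ℝ) ≤ ((∏ u, (G u).card : ℕ) : ℝ) := by exact_mod_cast h2
      _ = ∏ u, ((G u).card : ℝ) := by push_cast; rfl
      _ ≤ ∏ u, ((d : ℝ) ^ K * (if u ∈ U then ρ else 1)) :=
          Finset.prod_le_prod (fun u _ => by positivity) (fun u _ => hG u)
      _ = ((d : ℝ) ^ K) ^ (2 ^ d) * ρ ^ T.card := by
          rw [Finset.prod_mul_distrib, Finset.prod_const, Finset.card_univ]
          congr 1
          · simp
          · rw [← hU, Finset.prod_ite_mem, Finset.univ_inter, Finset.prod_const]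
  have hTM : M.card ≤ T.card + g := by
    have h3 := Finset.card_filter_add_card_filter_not (s := M)
      (fun i => g ≤ (M.filter (fun j => j < i)).card)
    have h4 := card_small M g
    have h5 : T.card = (M.filter (fun i => g ≤ (M.filter (fun j => j < i)).card)).card := rfl
    omega
  calc (((Finset.univ : Finset (Cell d → Fin K → Fin d)).filter
      (fun D => m ∈ Ind D q v)).card : ℝ) * ρ ^ g
      ≤ (((d : ℝ) ^ K) ^ (2 ^ d) * ρ ^ T.card) * ρ ^ g :=
        mul_le_mul_of_nonneg_right hcard (by positivity)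
    _ = ((d : ℝ) ^ K) ^ (2 ^ d) * ρ ^ (T.card + g) := by rw [pow_add]; ring
    _ ≤ ((d : ℝ) ^ K) ^ (2 ^ d) * ρ ^ M.card :=
        mul_le_mul_of_nonneg_left (pow_le_pow_of_le_one h0.le h1 hTM) (by positivity)

lemma exists_D {d q K g : ℕ} (hd : 0 < d) (ρ : ℝ)
    (h0 : 0 < ρ) (h1 : ρ ≤ 1) (hρ : ((d - g : ℕ) : ℝ) ^ K ≤ ρ * (d : ℝ) ^ K) :
    ∃ D : Cell d → Fin K → Fin d,
      ρ ^ g * (((∑ v, (Ind D q v).card : ℕ)) : ℝ) ≤ 2 ^ d * (1 + q * ρ) ^ d := by
  have hne : (Finset.univ : Finset (Cell d → Fin K → Fin d)).Nonempty :=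
    ⟨fun _ _ => ⟨0, hd⟩, Finset.mem_univ _⟩
  have hsum : ∑ D : Cell d → Fin K → Fin d,
      (ρ ^ g * (((∑ v, (Ind D q v).card : ℕ)) : ℝ)) ≤
      ∑ _D : Cell d → Fin K → Fin d, ((2 : ℝ) ^ d * (1 + q * ρ) ^ d) := by
    have e1 : ∑ D : Cell d → Fin K → Fin d, (ρ ^ g * (((∑ v, (Ind D q v).card : ℕ)) : ℝ)) =
        ∑ v : Cell d, ∑ m : Fin d → Option (Fin q),
          ((((Finset.univ : Finset (Cell d → Fin K → Fin d)).filter
            (fun D => m ∈ Ind D q v)).card : ℝ) * ρ ^ g) := by
      have e2 : ∀ (D : Cell d → Fin K → Fin d) (v : Cell d), ((Ind D q v).card : ℝ) =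
          ∑ m : Fin d → Option (Fin q), (if m ∈ Ind D q v then (1 : ℝ) else 0) := by
        intro D v
        simp
      have e3 : ∀ D : Cell d → Fin K → Fin d,
          (ρ ^ g * (((∑ v, (Ind D q v).card : ℕ)) : ℝ)) =
          ∑ v : Cell d, ∑ m : Fin d → Option (Fin q),
            (if m ∈ Ind D q v then (1 : ℝ) else 0) * ρ ^ g := by
        intro D
        rw [Nat.cast_sum, mul_comm, Finset.sum_mul]
        refine Finset.sum_congr rfl fun v _ => ?_
        rw [e2 D v, Finset.sum_mul]
      rw [Finset.sum_congr rfl fun D _ => e3 D, Finset.sum_comm]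
      refine Finset.sum_congr rfl fun v _ => ?_
      rw [Finset.sum_comm]
      refine Finset.sum_congr rfl fun m _ => ?_
      rw [← Finset.sum_mul]
      congr 1
      rw [Finset.sum_boole]
    rw [e1]
    have e4 : ∀ v : Cell d, ∑ m : Fin d → Option (Fin q),
          ((((Finset.univ : Finset (Cell d → Fin K → Fin d)).filter
            (fun D => m ∈ Ind D q v)).card : ℝ) * ρ ^ g) ≤
          ((d : ℝ) ^ K) ^ (2 ^ d) * (1 + q * ρ) ^ d := by
      intro v
      rw [← sum_supp d q ρ, Finset.mul_sum]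
      exact Finset.sum_le_sum fun m _ => count_bound v m ρ h0 h1 hρ
    refine le_trans (Finset.sum_le_sum fun v _ => e4 v) (le_of_eq ?_)
    rw [Finset.sum_const, Finset.sum_const, Finset.card_univ, Finset.card_univ]
    simp only [Fintype.card_fun, Fintype.card_bool, Fintype.card_fin, nsmul_eq_mul]
    push_cast
    ring
  obtain ⟨D, -, hD⟩ := Finset.exists_le_of_sum_le hne hsum
  exact ⟨D, hD⟩

lemma numeric (q : ℕ) (ε : ℝ) (hε : 0 < ε) :
    ∃ (a K d₀ : ℕ) (ρ : ℝ), 2 ≤ a ∧ 0 < ρ ∧ ρ ≤ 1 ∧
      ρ = (((a : ℝ) - 1) / a) ^ K ∧ ∀ d g : ℕ, d₀ ≤ d → 1 ≤ g → d ≤ a * g → a * g ≤ d + a →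
      (1 + (d : ℝ) * (q + 1)) ^ K * (2 ^ d * (1 + q * ρ) ^ d) <
        ρ ^ g * (2 + ε) ^ d := by
  set ρ₀ : ℝ := min 1 (ε / (4 * (q + 1))) with hρ₀
  have hq : (0 : ℝ) ≤ q := Nat.cast_nonneg q
  have hρ₀pos : 0 < ρ₀ := by
    rw [hρ₀]
    exact lt_min one_pos (by positivity)
  have hρ₀1 : ρ₀ ≤ 1 := min_le_left _ _
  have hρ₀2 : 2 * (1 + q * ρ₀) ≤ 2 + ε / 2 := by
    have h1 : ρ₀ ≤ ε / (4 * (q + 1)) := min_le_right _ _
    have h2 : (q : ℝ) * ρ₀ ≤ q * (ε / (4 * (q + 1))) := mul_le_mul_of_nonneg_left h1 hq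
    have h3 : (q : ℝ) * (ε / (4 * (q + 1))) ≤ ε / 4 := by
      rw [← mul_div_assoc, div_le_div_iff₀ (by positivity) (by positivity)]
      nlinarith
    linarith
  set r : ℝ := (2 + ε / 2) / (2 + ε) with hr
  have hr0 : 0 < r := by rw [hr]; positivity
  have hr1 : r < 1 := by
    rw [hr, div_lt_one (by positivity)]
    linarith
  obtain ⟨a₀, ha₀⟩ := exists_pow_lt_of_lt_one (show (0 : ℝ) < ρ₀ / 2 by positivity) hr1
  set a := a₀ + 2 with ha
  have hra : r ^ a < ρ₀ / 2 :=
    lt_of_le_of_lt (pow_le_pow_of_le_one hr0.le hr1.le (by omega)) ha₀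
  have ha2 : (2 : ℝ) ≤ a := by
    rw [ha]; push_cast
    have : (0 : ℝ) ≤ a₀ := Nat.cast_nonneg _
    linarith
  set y : ℝ := ((a : ℝ) - 1) / a with hy
  have hy0 : 0 < y := by
    rw [hy]; exact div_pos (by linarith) (by linarith)
  have hy1 : y < 1 := by
    rw [hy, div_lt_one (by linarith)]; linarith
  have hyhalf : 1 / 2 ≤ y := by
    rw [hy, div_le_div_iff₀ (by norm_num) (by linarith)]; linarith
  obtain ⟨n, hn1, hn2⟩ := exists_nat_pow_near_of_lt_one hρ₀pos hρ₀1 hy0 hy1
  set ρ : ℝ := y ^ (n + 1) with hρ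
  have hρpos : 0 < ρ := pow_pos hy0 _
  have hρ1 : ρ ≤ 1 := pow_le_one₀ hy0.le hy1.le
  have hρlow : ρ₀ / 2 ≤ ρ := by
    rw [hρ, pow_succ]
    nlinarith
  set c : ℝ := (2 * (1 + q * ρ)) ^ a with hc
  have hcbound : c < ρ * (2 + ε) ^ a := by
    have h1 : 2 * (1 + q * ρ) ≤ 2 + ε / 2 := by
      have : (q : ℝ) * ρ ≤ q * ρ₀ := mul_le_mul_of_nonneg_left hn1.le hq
      linarith
    calc c ≤ (2 + ε / 2) ^ a := pow_le_pow_left₀ (by positivity) h1 a
      _ = r ^ a * (2 + ε) ^ a := by
          rw [← mul_pow, hr, div_mul_cancel₀ _ (by positivity)]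
      _ < (ρ₀ / 2) * (2 + ε) ^ a := mul_lt_mul_of_pos_right hra (by positivity)
      _ ≤ ρ * (2 + ε) ^ a := mul_le_mul_of_nonneg_right hρlow (by positivity)
  set θ : ℝ := c / (ρ * (2 + ε) ^ a) with hθ
  have hCpos : 0 < ρ * (2 + ε) ^ a := by positivity
  have hθ0 : 0 ≤ θ := by rw [hθ]; positivity
  have hθ1 : θ < 1 := by rw [hθ, div_lt_one hCpos]; exact hcbound
  have htend := tendsto_pow_const_mul_const_pow_of_abs_lt_one (n + 1)
    (show |θ| < 1 by rw [abs_of_nonneg hθ0]; exact hθ1)
  set B : ℝ := (1 + a * (q + 1)) ^ (n + 1) * (2 + ε) ^ a with hB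
  have hBpos : 0 < B := by rw [hB]; positivity
  have hev := htend.eventually (gt_mem_nhds (show (0 : ℝ) < 1 / B by positivity))
  obtain ⟨g₀, hg₀⟩ := eventually_atTop.1 hev
  refine ⟨a, n + 1, a * g₀, ρ, by omega, hρpos, hρ1, rfl, ?_⟩
  intro d g hd hg hdg hgd
  have hgg : g₀ ≤ g := by
    have : a * g₀ ≤ a * g := le_trans hd hdg
    exact Nat.le_of_mul_le_mul_left this (by omega)
  have hg1 := hg₀ g hgg
  have hg2' : (1 : ℝ) ≤ g := by exact_mod_cast hg
  have hdg' : (d : ℝ) ≤ a * g := by exact_mod_cast hdg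
  have h1 : (1 + (d : ℝ) * (q + 1)) ^ (n + 1) ≤
      (1 + a * (q + 1)) ^ (n + 1) * (g : ℝ) ^ (n + 1) := by
    rw [← mul_pow]
    refine pow_le_pow_left₀ (by positivity) ?_ _
    nlinarith
  have h2 : (2 : ℝ) ^ d * (1 + q * ρ) ^ d ≤ c ^ g := by
    rw [← mul_pow, hc, ← pow_mul]
    refine pow_le_pow_right₀ ?_ hdg
    nlinarith [mul_nonneg hq hρpos.le]
  have h3 : c ^ g = θ ^ g * (ρ ^ g * (2 + ε) ^ (a * g)) := by
    have : c = θ * (ρ * (2 + ε) ^ a) := by
      rw [hθ, div_mul_cancel₀ _ hCpos.ne']
    rw [this, mul_pow, mul_pow, pow_mul (2 + ε) a g]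
  have h3' : (2 + ε) ^ (a * g) ≤ (2 + ε) ^ d * (2 + ε) ^ a := by
    rw [← pow_add]
    exact pow_le_pow_right₀ (by linarith) hgd
  have h4 : B * ((g : ℝ) ^ (n + 1) * θ ^ g) < 1 := by
    rw [lt_div_iff₀ hBpos] at hg1
    linarith
  have hD : 0 < ρ ^ g * (2 + ε) ^ d := by positivity
  calc (1 + (d : ℝ) * (q + 1)) ^ (n + 1) * (2 ^ d * (1 + q * ρ) ^ d)
      ≤ ((1 + a * (q + 1)) ^ (n + 1) * (g : ℝ) ^ (n + 1)) * c ^ g :=
        mul_le_mul h1 h2 (by positivity) (by positivity)
    _ = ((1 + a * (q + 1)) ^ (n + 1) * (g : ℝ) ^ (n + 1)) *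
          (θ ^ g * (ρ ^ g * (2 + ε) ^ (a * g))) := by rw [h3]
    _ ≤ ((1 + a * (q + 1)) ^ (n + 1) * (g : ℝ) ^ (n + 1)) *
          (θ ^ g * (ρ ^ g * ((2 + ε) ^ d * (2 + ε) ^ a))) := by gcongr
    _ = (B * ((g : ℝ) ^ (n + 1) * θ ^ g)) * (ρ ^ g * (2 + ε) ^ d) := by rw [hB]; ring
    _ < 1 * (ρ ^ g * (2 + ε) ^ d) := mul_lt_mul_of_pos_right h4 hD
    _ = ρ ^ g * (2 + ε) ^ d := one_mul _

theorem main (k : ℕ) (hk : 3 ≤ k) (ε : ℝ) (hε : 0 < ε) :
    ∃ d₀ : ℕ, ∀ d : ℕ, d₀ ≤ d → ∃ L : ℝ,
      Tendsto (fun n : ℕ => (pBox n d k : ℝ)) atTop (𝓝 L) ∧ L < (2 + ε) ^ d := by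
  obtain ⟨q, rfl⟩ : ∃ q, k = q + 2 := ⟨k - 2, by omega⟩
  obtain ⟨a, K, d₀, ρ, ha, h0, h1, hρ, hnum⟩ := numeric q ε hε
  refine ⟨d₀ + 1, fun d hd => ?_⟩
  obtain ⟨g, hg, hdg, hgd⟩ : ∃ g : ℕ, 1 ≤ g ∧ d ≤ a * g ∧ a * g ≤ d + a := by
    refine ⟨d / a + 1, Nat.succ_le_succ (Nat.zero_le _), ?_, ?_⟩
    · have h1 := Nat.lt_mul_div_succ d (show 0 < a by omega)
      exact h1.le
    · have h2 := Nat.mul_div_le d a
      rw [Nat.mul_add, Nat.mul_one]
      omega
  have hd0 : 0 < d := by omega
  have hρ' : ((d - g : ℕ) : ℝ) ^ K ≤ ρ * ((d : ℕ) : ℝ) ^ K := by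
    rw [hρ, ← mul_pow]
    refine pow_le_pow_left₀ (Nat.cast_nonneg _) ?_ _
    have ha' : (0 : ℝ) < a := by
      have : 0 < a := by omega
      exact_mod_cast this
    have hdg' : (d : ℝ) ≤ a * g := by exact_mod_cast hdg
    have ha1 : (1 : ℝ) ≤ a := by
      have : 1 ≤ a := by omega
      exact_mod_cast this
    rcases le_total g d with h | h
    · rw [Nat.cast_sub h, div_mul_eq_mul_div, le_div_iff₀ ha']
      nlinarith
    · rw [Nat.sub_eq_zero_of_le h]
      have h3 : (0 : ℝ) ≤ (a - 1) / a := div_nonneg (by linarith) ha'.le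
      rw [Nat.cast_zero]
      exact mul_nonneg h3 (Nat.cast_nonneg _)
  obtain ⟨D, hD⟩ := exists_D (q := q) hd0 ρ h0 h1 hρ'
  obtain ⟨L, hL1, hL2⟩ := limit_of_good (good_main (q := q) D)
  refine ⟨L, hL1, lt_of_le_of_lt hL2 ?_⟩
  have hpos : 0 < ρ ^ g := by positivity
  rw [← mul_lt_mul_iff_right₀ hpos]
  refine lt_of_le_of_lt ?_ (hnum d g (by omega) hg hdg hgd)
  push_cast at hD ⊢
  calc ρ ^ g * ((1 + (d : ℝ) * (q + 1)) ^ K * ∑ v, ((Ind D q v).card : ℝ))
      = (1 + (d : ℝ) * (q + 1)) ^ K * (ρ ^ g * ∑ v, ((Ind D q v).card : ℝ)) := by ring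
    _ ≤ _ := mul_le_mul_of_nonneg_left hD (by positivity)

/-- Sanity check: for `n ≥ k` the minimum defining `pBox n d k` is attained. -/
theorem pBox_attained (n d k : ℕ) (hn : k ≤ n) :
    ∃ P : Finset (Set (Fin d → Fin n)), P.card = pBox n d k ∧ IsBoxPartition P ∧
      Piercing k P := by
  have hgood : Good (Fin n) d k (Nat.card (Fin d → Fin n)) := by
    refine ⟨Fin d → Fin n, inferInstance, fun x => x, ?_, ?_, ?_⟩
    · intro x y i h
      subst h
      simp
    · intro i c
      refine le_trans hn ?_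
      have hinj : Function.Injective (fun a : Fin n => Function.update c i a) := by
        intro a b hab
        have := congrFun hab i
        simpa using this
      have h1 : (Set.range (fun a : Fin n => Function.update c i a)).ncard = n := by
        rw [← Set.image_univ, Set.ncard_image_of_injective _ hinj, Set.ncard_univ]
        simp
      refine le_trans (le_of_eq h1.symm) ?_
      refine Set.ncard_le_ncard ?_ (Set.toFinite _)
      rintro _ ⟨a, rfl⟩
      exact ⟨_, fun j hj => Function.update_of_ne hj _ _, rfl⟩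
    · refine le_trans (Set.ncard_le_ncard (Set.subset_univ _) (Set.toFinite _)) ?_
      rw [Set.ncard_univ]
  obtain ⟨P, h1, h2, h3⟩ := exists_partition hgood
  have hne : {m | ∃ P : Finset (Set (Fin d → Fin n)), P.card = m ∧ IsBoxPartition P ∧
      Piercing k P}.Nonempty := ⟨_, P, rfl, h2, h3⟩
  exact Nat.sInf_mem hne

/-- For every `k ≥ 3` the exponential growth rate of the least number of boxes in a `k`-piercing
box partition is at most (hence exactly) `2`: for every `ε > 0` and all large `d` the limit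
`p_box(d,k)` of `p_box(n,d,k)` as `n → ∞` exists and is smaller than `(2 + ε) ^ d`. -/
theorem result :
    ∀ k : ℕ, 3 ≤ k → ∀ ε : ℝ, 0 < ε → ∃ d₀ : ℕ, ∀ d : ℕ, d₀ ≤ d → ∃ L : ℝ,
      Tendsto (fun n : ℕ => (pBox n d k : ℝ)) atTop (𝓝 L) ∧ L < (2 + ε) ^ d :=
  fun k hk ε hε => main k hk ε hε

end Pool.Agent.Results.MP_7268ce_co.GrowthRateTwo
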